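import Mathlib

namespace Pool.Agent.Results.MP_9d026e_co.Three
open Finset Pointwise Polynomial

theorem result (ε : ℝ) (hε : 0 < ε) : ∃ A : Finset (ZMod 3)[X], (∀ f ∈ A, IsSquare f) ∧
    (((A + A : Set (ZMod 3)[X]).ncard : ℝ) < (A.card : ℝ) ^ (1 + ε)) := by
  classical
  have h3 : (3 : (ZMod 3)[X]) = 0 := by
    have := CharP.cast_eq_zero (ZMod 3)[X] 3
    exact_mod_cast this
  let a : (ZMod 3)[X] := (X ^ 2 + 1) ^ 2
  let h : (ZMod 3)[X] := X ^ 3 - X
  have hh : h ≠ 0 := by
    intro h0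
    have := congrArg (fun p => p.coeff 3) h0
    simp [h, coeff_X] at this
  let g : ZMod 3 → (ZMod 3)[X] := fun t => a + C t * h
  have hg : ∀ b : (ZMod 3)[X], Function.Injective fun t : ZMod 3 => b + C t * h := by
    intro b s t hst
    exact C_injective (mul_right_cancel₀ hh (add_left_cancel hst))
  refine ⟨univ.image g, ?_, ?_⟩
  · intro f hf
    obtain ⟨t, _, rfl⟩ := mem_image.1 hf
    have ht0 : ∀ t : ZMod 3, t = 0 ∨ t = 1 ∨ t = -1 := by decide
    have ht := ht0 t
    rcases ht with rfl | rfl | rfl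
    · exact ⟨X ^ 2 + 1, by simp [g, a, sq]⟩
    · refine ⟨X ^ 2 + 2 * X - 1, ?_⟩
      simp only [g, a, h, map_one]
      linear_combination (X - X ^ 3) * h3
    · refine ⟨X ^ 2 - 2 * X - 1, ?_⟩
      simp only [g, a, h, map_neg, map_one]
      linear_combination (X ^ 3 - X) * h3
  · have h1 : ((univ.image g : Finset _) + (univ.image g : Finset _) : Set (ZMod 3)[X]) ⊆
        ↑(univ.image fun t : ZMod 3 => (a + a) + C t * h) := by
      rintro _ ⟨x, hx, y, hy, rfl⟩
      obtain ⟨s, _, rfl⟩ := mem_image.1 (mem_coe.1 hx)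
      obtain ⟨t, _, rfl⟩ := mem_image.1 (mem_coe.1 hy)
      refine mem_coe.2 (mem_image.2 ⟨s + t, mem_univ _, ?_⟩)
      simp only [g, map_add]
      ring
    have h2 := Set.ncard_le_ncard h1 (Finset.finite_toSet _)
    rw [Set.ncard_coe_finset, card_image_of_injective _ (hg _)] at h2
    rw [card_image_of_injective _ (hg a)]
    simp only [card_univ, ZMod.card] at h2 ⊢
    have h4 : (3 : ℝ) ^ (1 : ℝ) < 3 ^ (1 + ε) :=
      Real.rpow_lt_rpow_of_exponent_lt (by norm_num) (by linarith)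
    rw [Real.rpow_one] at h4
    calc _ ≤ ((3 : ℕ) : ℝ) := by exact_mod_cast h2
      _ < _ := by exact_mod_cast h4

end Pool.Agent.Results.MP_9d026e_co.Three
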